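import Mathlib
import Pool.Agent.Lib_helper31.LK.DefsP

/-!
# Quadratic fields, real characters and class numbers: definitions (MP_cc4f83_nt, T12)
-/

set_option autoImplicit false

namespace Pool.Agent.CN

open NumberField IsDedekindDomain
open Pool.Agent.LK (PQ)

/-- an integral basis `1, ω` of the ring of integers, `ω² = t ω - n` -/
structure QB (K : Type) [Field K] [NumberField K] (ω : 𝓞 K) (t n : ℤ) : Prop where
  sq : ω ^ 2 = (t : 𝓞 K) * ω - (n : 𝓞 K)
  disc : discr K = t ^ 2 - 4 * n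
  ex : ∀ x : 𝓞 K, ∃ a b : ℤ, x = (a : 𝓞 K) + (b : 𝓞 K) * ω
  uq : ∀ a b : ℤ, (a : 𝓞 K) + (b : 𝓞 K) * ω = 0 → a = 0 ∧ b = 0

/-- the number of roots of `x² - t x + n` modulo `p` -/
noncomputable def rt (t n : ℤ) (p : ℕ) : ℕ :=
  Nat.card {x : ZMod p // x ^ 2 - (t : ZMod p) * x + (n : ZMod p) = 0}

/-- fundamental discriminants -/
def Fund (D : ℤ) : Prop := D ≠ 1 ∧ ((D % 4 = 1 ∧ Squarefree D) ∨
  ∃ m : ℤ, D = 4 * m ∧ Squarefree m ∧ (m % 4 = 2 ∨ m % 4 = 3))

/-- `χ` modulo `q` is the character of the discriminant `D` -/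
structure ChD {q : ℕ} [NeZero q] (χ : DirichletCharacter ℂ q) (D : ℤ) : Prop where
  abs : D.natAbs = q
  sgn : χ (-1) = ((D.sign : ℤ) : ℂ)
  val : ∀ t n : ℤ, t ^ 2 - 4 * n = D → ∀ p : ℕ, p.Prime →
    χ (p : ZMod q) = ((rt t n p : ℕ) : ℂ) - 1

/-- lower bound for the class numbers of the imaginary quadratic fields -/
def ClI (B : ℝ) : Prop := ∃ c : ℝ, 0 < c ∧ ∀ (K : Type) [Field K] [NumberField K],
  Module.finrank ℚ K = 2 → discr K < 0 →
  c * Real.sqrt |(discr K : ℝ)| * Real.log |(discr K : ℝ)| ^ (-B) ≤ classNumber K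

/-- lower bound for the product of class number and regulator of the quadratic fields -/
def ClR (B : ℝ) : Prop := ∃ c : ℝ, 0 < c ∧ ∀ (K : Type) [Field K] [NumberField K],
  Module.finrank ℚ K = 2 →
  c * Real.sqrt |(discr K : ℝ)| * Real.log |(discr K : ℝ)| ^ (-B) ≤
    classNumber K * Units.regulator K

end Pool.Agent.CN
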