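import Pool.Agent.Lib_helper37.CN.ND
import Pool.Agent.Lib_helper39.CN.NB
import Pool.Agent.Lib_helper17.RS.P_EB

/-!
# CN, block NE: `ζ_K = ζ L(χ)`
-/

set_option autoImplicit false

namespace Pool.Agent.CN

open NumberField IsDedekindDomain Filter Topology

section

variable {K : Type} [Field K] [NumberField K]

theorem ne_prime (v : HeightOneSpectrum (𝓞 K)) :
    (Ideal.absNorm (Ideal.under ℤ v.asIdeal)).Prime := by
  have hp := v.isPrime
  have hne : NeZero v.asIdeal := ⟨v.ne_bot⟩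
  exact Nat.absNorm_under_prime v.asIdeal

/-- the prime below -/
noncomputable def ne_p (v : HeightOneSpectrum (𝓞 K)) : Nat.Primes :=
  ⟨Ideal.absNorm (Ideal.under ℤ v.asIdeal), ne_prime v⟩

theorem ne_p_iff {v : HeightOneSpectrum (𝓞 K)} {p : Nat.Primes} :
    ne_p v = p ↔ ((p : ℕ) : 𝓞 K) ∈ v.asIdeal := by
  constructor
  · rintro rfl
    exact Int.absNorm_under_mem v.asIdeal
  · intro h
    have h2 : (((p : ℕ) : ℤ) : 𝓞 K) ∈ v.asIdeal := by
      rw [Int.cast_natCast]
      exact h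
    rw [Int.cast_mem_ideal_iff] at h2
    have h3 : Ideal.absNorm (Ideal.under ℤ v.asIdeal) ∣ (p : ℕ) := Int.natCast_dvd_natCast.1 h2
    exact Subtype.ext ((Nat.prime_dvd_prime_iff_eq (ne_prime v) p.2).1 h3)

theorem ne_mem {v : HeightOneSpectrum (𝓞 K)} {p : ℕ} (h : Ideal.absNorm v.asIdeal = p) :
    (p : 𝓞 K) ∈ v.asIdeal := by
  rw [← h]
  exact Ideal.absNorm_mem v.asIdeal

theorem ne_fin {X : Type} {f : X → ℂ} (T : Finset X) {S : Set X} (h : S = (T : Set X)) :
    HasProd (fun c : S => f c) (∏ b ∈ T, f b) := by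
  subst h
  exact Finset.hasProd T f

/-- the local factor -/
theorem ne_local (hK : Module.finrank ℚ K = 2) {ω : 𝓞 K} {t n : ℤ} (h : QB K ω t n)
    (p : Nat.Primes) {s : ℂ} (hs : 1 < s.re) :
    HasProd (fun c : {v : HeightOneSpectrum (𝓞 K) // ne_p v = p} =>
      (1 - (RSK.nv c.1 : ℂ) ^ (-s))⁻¹)
      ((1 - (p : ℂ) ^ (-s))⁻¹ * (1 - (((rt t n p : ℕ) : ℂ) - 1) * (p : ℂ) ^ (-s))⁻¹) := by
  classical
  have hp := p.2
  have hcard := qb_count h hp
  rcases qb_above K hK hp with ⟨v, w, hvw, hv, hw, hu⟩ | ⟨v, hv, hu⟩ | ⟨v, hv, hu⟩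
  · have h1 : {u : HeightOneSpectrum (𝓞 K) | ne_p u = p} =
        (({v, w} : Finset (HeightOneSpectrum (𝓞 K))) : Set (HeightOneSpectrum (𝓞 K))) := by
      ext u
      simp only [Set.mem_ofPred_eq, Finset.coe_insert, Finset.coe_singleton, Set.mem_insert_iff,
        Set.mem_singleton_iff]
      rw [ne_p_iff, hu]
    have h2 : {u : HeightOneSpectrum (𝓞 K) | Ideal.absNorm u.asIdeal = p} = {v, w} := by
      ext u
      simp only [Set.mem_ofPred_eq, Set.mem_insert_iff, Set.mem_singleton_iff]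
      constructor
      · intro h3
        exact (hu u).1 (ne_mem h3)
      · rintro (rfl | rfl)
        · exact hv
        · exact hw
    have h3 : rt t n p = 2 := by
      rw [← hcard]
      have : Nat.card {u : HeightOneSpectrum (𝓞 K) // Ideal.absNorm u.asIdeal = p} =
          ({u : HeightOneSpectrum (𝓞 K) | Ideal.absNorm u.asIdeal = p}).ncard := rfl
      rw [this, h2, Set.ncard_pair hvw]
    have h4 := ne_fin (f := fun v => (1 - (RSK.nv v : ℂ) ^ (-s))⁻¹) _ h1
    rw [Finset.prod_pair hvw] at h4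
    have h5 : RSK.nv v = p := hv
    have h6 : RSK.nv w = p := hw
    rw [h5, h6] at h4
    rw [h3]
    have h7 : ((2 : ℕ) : ℂ) - 1 = 1 := by norm_num
    rw [h7, one_mul]
    exact h4
  · have h1 : {u : HeightOneSpectrum (𝓞 K) | ne_p u = p} =
        (({v} : Finset (HeightOneSpectrum (𝓞 K))) : Set (HeightOneSpectrum (𝓞 K))) := by
      ext u
      simp only [Set.mem_ofPred_eq, Finset.coe_singleton, Set.mem_singleton_iff]
      rw [ne_p_iff, hu]
    have h2 : {u : HeightOneSpectrum (𝓞 K) | Ideal.absNorm u.asIdeal = p} = {v} := by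
      ext u
      simp only [Set.mem_ofPred_eq, Set.mem_singleton_iff]
      constructor
      · intro h3
        exact (hu u).1 (ne_mem h3)
      · rintro rfl
        exact hv
    have h3 : rt t n p = 1 := by
      rw [← hcard]
      have : Nat.card {u : HeightOneSpectrum (𝓞 K) // Ideal.absNorm u.asIdeal = p} =
          ({u : HeightOneSpectrum (𝓞 K) | Ideal.absNorm u.asIdeal = p}).ncard := rfl
      rw [this, h2, Set.ncard_singleton]
    have h4 := ne_fin (f := fun v => (1 - (RSK.nv v : ℂ) ^ (-s))⁻¹) _ h1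
    rw [Finset.prod_singleton] at h4
    have h5 : RSK.nv v = p := hv
    rw [h5] at h4
    rw [h3]
    have h7 : (1 : ℂ) - (((1 : ℕ) : ℂ) - 1) * (p : ℂ) ^ (-s) = 1 := by push_cast; ring
    rw [h7, inv_one, mul_one]
    exact h4
  · have h1 : {u : HeightOneSpectrum (𝓞 K) | ne_p u = p} =
        (({v} : Finset (HeightOneSpectrum (𝓞 K))) : Set (HeightOneSpectrum (𝓞 K))) := by
      ext u
      simp only [Set.mem_ofPred_eq, Finset.coe_singleton, Set.mem_singleton_iff]
      rw [ne_p_iff, hu]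
    have h2 : {u : HeightOneSpectrum (𝓞 K) | Ideal.absNorm u.asIdeal = p} = ∅ := by
      ext u
      simp only [Set.mem_ofPred_eq, Set.mem_empty_iff_false, iff_false]
      intro h3
      have h4 := (hu u).1 (ne_mem h3)
      rw [h4, hv] at h3
      have h5 := hp.one_lt
      nlinarith only [h3, h5]
    have h3 : rt t n p = 0 := by
      rw [← hcard]
      have : Nat.card {u : HeightOneSpectrum (𝓞 K) // Ideal.absNorm u.asIdeal = p} =
          ({u : HeightOneSpectrum (𝓞 K) | Ideal.absNorm u.asIdeal = p}).ncard := rfl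
      rw [this, h2, Set.ncard_empty]
    have h4 := ne_fin (f := fun v => (1 - (RSK.nv v : ℂ) ^ (-s))⁻¹) _ h1
    rw [Finset.prod_singleton] at h4
    have h5 : RSK.nv v = (p : ℕ) ^ 2 := hv
    rw [h5] at h4
    rw [h3, ← mul_inv]
    have h7 : ((1 : ℂ) - (p : ℂ) ^ (-s)) * (1 - (((0 : ℕ) : ℂ) - 1) * (p : ℂ) ^ (-s)) =
        1 - (((p : ℕ) ^ 2 : ℕ) : ℂ) ^ (-s) := by
      have h8 : (((p : ℕ) ^ 2 : ℕ) : ℂ) ^ (-s) = (p : ℂ) ^ (-s) * (p : ℂ) ^ (-s) := by
        rw [sq, Nat.cast_mul, Complex.natCast_mul_natCast_cpow]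
      rw [h8]
      push_cast
      ring
    rw [h7]
    exact h4

theorem ne_zeta (hK : Module.finrank ℚ K = 2) {ω : 𝓞 K} {t n : ℤ} (h : QB K ω t n) {q : ℕ}
    [NeZero q] {χ : DirichletCharacter ℂ q}
    (hχ : ∀ p : ℕ, p.Prime → χ (p : ZMod q) = ((rt t n p : ℕ) : ℂ) - 1) {s : ℂ}
    (hs : 1 < s.re) : dedekindZeta K s = riemannZeta s * DirichletCharacter.LFunction χ s := by
  have h1 := RSK.eb_hasProd (k := K) hs
  have h2 := (Equiv.sigmaFiberEquiv (ne_p (K := K))).hasProd_iff.2 h1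
  have h3 := h2.sigma (fun p => ne_local hK h p hs)
  have h4 := (riemannZeta_eulerProduct_hasProd hs).mul
    (DirichletCharacter.LSeries_eulerProduct_hasProd χ hs)
  rw [DirichletCharacter.LFunction_eq_LSeries χ hs]
  refine h3.unique ?_
  refine h4.congr_fun fun p => ?_
  rw [hχ p p.2]

end

/-- block NE -/
theorem zeta_eq {K : Type} [Field K] [NumberField K] (hK : Module.finrank ℚ K = 2) {ω : 𝓞 K}
    {t n : ℤ} (h : QB K ω t n) {q : ℕ} [NeZero q] {χ : DirichletCharacter ℂ q} (hne : χ ≠ 1)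
    (hχ : ∀ p : ℕ, p.Prime → χ (p : ZMod q) = ((rt t n p : ℕ) : ℂ) - 1) :
    DirichletCharacter.LFunction χ 1 = ((dedekindZeta_residue K : ℝ) : ℂ) := by
  have h1 := tendsto_sub_one_mul_dedekindZeta_nhdsGT K
  have hof : Tendsto (fun s : ℝ => (s : ℂ)) (𝓝[>] 1) (𝓝[≠] 1) := by
    apply tendsto_nhdsWithin_of_tendsto_nhds_of_eventually_within
    · have h3 : Tendsto (fun s : ℝ => (s : ℂ)) (𝓝 1) (𝓝 ((1 : ℝ) : ℂ)) :=
        Complex.continuous_ofReal.tendsto 1
      rw [Complex.ofReal_one] at h3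
      exact h3.mono_left nhdsWithin_le_nhds
    · filter_upwards [self_mem_nhdsWithin] with s hs
      have h4 : (1 : ℝ) < s := hs
      show (s : ℂ) ≠ 1
      exact_mod_cast h4.ne'
  have h2 := riemannZeta_residue_one.comp hof
  have h3 : Tendsto (fun s : ℝ => DirichletCharacter.LFunction χ (s : ℂ)) (𝓝[>] 1)
      (𝓝 (DirichletCharacter.LFunction χ 1)) :=
    ((DirichletCharacter.differentiable_LFunction hne).continuous.tendsto 1).comp
      (hof.mono_right nhdsWithin_le_nhds)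
  have h4 := h2.mul h3
  rw [one_mul] at h4
  refine tendsto_nhds_unique h4 (h1.congr' ?_)
  filter_upwards [self_mem_nhdsWithin] with s hs
  have h5 : (1 : ℝ) < s := hs
  rw [ne_zeta hK h hχ (s := (s : ℂ)) (by rw [Complex.ofReal_re]; exact h5)]
  simp only [Function.comp_apply]
  ring

end Pool.Agent.CN
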