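import Pool.Agent.Lib_helper82.CN.Defs

/-!
# CN, block NF: roots of quadratic polynomials modulo a prime
-/

set_option autoImplicit false

namespace Pool.Agent.CN

theorem nf_two_ne {p : ℕ} [Fact p.Prime] (hp : p ≠ 2) : (2 : ZMod p) ≠ 0 := by
  intro h
  have h1 : ((2 : ℕ) : ZMod p) = 0 := by exact_mod_cast h
  rw [ZMod.natCast_eq_zero_iff] at h1
  exact hp ((Nat.prime_dvd_prime_iff_eq (Fact.out) Nat.prime_two).1 h1)

/-- block NF: the number of roots modulo an odd prime -/
theorem rt_odd (t n : ℤ) {p : ℕ} [Fact p.Prime] (hp : p ≠ 2) :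
    (rt t n p : ℤ) = 1 + legendreSym p (t ^ 2 - 4 * n) := by
  classical
  have h2 := nf_two_ne hp
  have h1 := legendreSym.card_sqrts p hp (t ^ 2 - 4 * n)
  rw [add_comm, ← h1]
  congr 1
  unfold rt
  rw [Set.toFinset_card, ← Nat.card_eq_fintype_card]
  refine Nat.card_congr
    { toFun := fun x => ⟨2 * x.1 - t, ?_⟩
      invFun := fun y => ⟨(y.1 + t) / 2, ?_⟩
      left_inv := ?_
      right_inv := ?_ }
  · have := x.2
    show (2 * x.1 - (t : ZMod p)) ^ 2 = ((t ^ 2 - 4 * n : ℤ) : ZMod p)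
    push_cast
    linear_combination 4 * this
  · have h3 : y.1 ^ 2 = ((t ^ 2 - 4 * n : ℤ) : ZMod p) := y.2
    push_cast at h3
    field_simp
    linear_combination h3
  · intro x
    apply Subtype.ext
    simp only [sub_add_cancel]
    field_simp
  · intro y
    apply Subtype.ext
    simp only
    field_simp
    ring

theorem nf_two_aux : ∀ t n : ZMod 2, Nat.card {x : ZMod 2 // x ^ 2 - t * x + n = 0} =
    if t = 0 then 1 else if n = 0 then 2 else 0 := by
  intro t n
  rw [Nat.card_eq_fintype_card]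
  revert t n
  decide

/-- block NF: the number of roots modulo `2` -/
theorem rt_two (t n : ℤ) : rt t n 2 = if (t ^ 2 - 4 * n) % 8 = 1 then 2 else
    if (t ^ 2 - 4 * n) % 8 = 5 then 0 else 1 := by
  unfold rt
  rw [nf_two_aux]
  rcases Int.even_or_odd' t with ⟨a, ha | ha⟩
  · have h1 : (t : ZMod 2) = 0 := by
      rw [ZMod.intCast_zmod_eq_zero_iff_dvd]
      exact ⟨a, ha⟩
    rw [if_pos h1, if_neg, if_neg]
    · subst ha
      ring_nf
      omega
    · subst ha
      ring_nf
      omega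
  · have h1 : (t : ZMod 2) ≠ 0 := by
      rw [Ne, ZMod.intCast_zmod_eq_zero_iff_dvd]
      omega
    rw [if_neg h1]
    have h3 : (2 * a + 1) ^ 2 % 8 = 1 := by
      have h4 : (2 * a + 1) ^ 2 = 4 * (a * (a + 1)) + 1 := by ring
      obtain ⟨c, hc⟩ : (2 : ℤ) ∣ a * (a + 1) := (Int.even_mul_succ_self a).two_dvd
      rw [h4, hc]
      omega
    subst ha
    set w := (2 * a + 1) ^ 2 with hw
    rcases Int.even_or_odd' n with ⟨b, hb | hb⟩
    · have h2 : (n : ZMod 2) = 0 := by
        rw [ZMod.intCast_zmod_eq_zero_iff_dvd]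
        exact ⟨b, hb⟩
      rw [if_pos h2, if_pos]
      omega
    · have h2 : (n : ZMod 2) ≠ 0 := by
        rw [Ne, ZMod.intCast_zmod_eq_zero_iff_dvd]
        omega
      rw [if_neg h2, if_neg, if_pos]
      · omega
      · omega

end Pool.Agent.CN
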