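import Pool.Agent.Lib_helper82.CN.NF
import Pool.Agent.Lib_helper39.RSE.Defs

/-!
# CN, block NG: the values of the real characters at primes
-/

set_option autoImplicit false

namespace Pool.Agent.CN

open Pool.Agent.RC (cc psi rv)
open Pool.Agent.RSE (Par)

theorem ng_chi4 {m : ℕ} (hm : Odd m) : ZMod.χ₄ (m : ZMod 4) = 1 ∨ ZMod.χ₄ (m : ZMod 4) = -1 := by
  have h : (m : ZMod 4) = 1 ∨ (m : ZMod 4) = 3 := by
    have h1 : m % 4 = 1 ∨ m % 4 = 3 := by
      obtain ⟨a, ha⟩ := hm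
      omega
    rcases h1 with h1 | h1
    · left
      have := (ZMod.natCast_eq_natCast_iff m 1 4).2 h1
      exact_mod_cast this
    · right
      have := (ZMod.natCast_eq_natCast_iff m 3 4).2 h1
      exact_mod_cast this
  rcases h with h | h <;> rw [h] <;> decide

/-- the sign of `ψ_j` -/
theorem ng_sign {κ : ℕ} {j : Fin 4} {m : ℕ} (h : Par κ j m) (hm : Odd m) :
    (-1 : ℤ) ^ κ * ZMod.χ₄ (m : ZMod 4) = psi j 7 := by
  rw [← h.2, mul_assoc]
  rcases ng_chi4 hm with h1 | h1 <;> rw [h1] <;> ring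

theorem ng_psi7 (j : Fin 4) : psi j 7 = ![1, -1, 1, -1] j := by
  fin_cases j
  · rfl
  · show ZMod.χ₄ ((7 : ℕ) : ZMod 4) = -1
    decide
  · show ZMod.χ₈ ((7 : ℕ) : ZMod 8) = 1
    decide
  · show ZMod.χ₈' ((7 : ℕ) : ZMod 8) = -1
    decide

theorem ng_four {p : ℕ} (hp : Odd p) : jacobiSym 4 p = 1 := by
  have h1 : (4 : ℤ) = 2 ^ 2 := by norm_num
  rw [h1]
  refine jacobiSym.sq_one' ?_
  rw [Int.gcd_eq_natAbs]
  exact Nat.coprime_two_left.2 hp

theorem ng_psi {j : Fin 4} {p : ℕ} (hp : Odd p) :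
    jacobiSym (psi j 7 * (cc j : ℕ)) p = psi j p := by
  rw [ng_psi7]
  fin_cases j
  · show jacobiSym (1 * ((1 : ℕ) : ℤ)) p = 1
    rw [Nat.cast_one, mul_one, jacobiSym.one_left]
  · show jacobiSym (-1 * ((4 : ℕ) : ℤ)) p = ZMod.χ₄ (p : ZMod 4)
    rw [jacobiSym.mul_left, jacobiSym.at_neg_one hp]
    have : (((4 : ℕ) : ℤ)) = 4 := rfl
    rw [this, ng_four hp, mul_one]
  · show jacobiSym (1 * ((8 : ℕ) : ℤ)) p = ZMod.χ₈ (p : ZMod 8)
    have : (1 * ((8 : ℕ) : ℤ)) = 2 * 4 := rfl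
    rw [this, jacobiSym.mul_left, jacobiSym.at_two hp, ng_four hp, mul_one]
  · show jacobiSym (-1 * ((8 : ℕ) : ℤ)) p = ZMod.χ₈' (p : ZMod 8)
    have : (-1 * ((8 : ℕ) : ℤ)) = (-2) * 4 := rfl
    rw [this, jacobiSym.mul_left, jacobiSym.at_neg_two hp, ng_four hp, mul_one]

/-- block NG: the characters of `RC` -/
theorem rv_eq {κ : ℕ} {j : Fin 4} {m : ℕ} (h : Par κ j m) (hm : Odd m) (t n : ℤ)
    (hD : t ^ 2 - 4 * n = (-1) ^ κ * (cc j * m : ℕ)) {p : ℕ} (hp : p.Prime) :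
    rv j m p = (rt t n p : ℤ) - 1 := by
  have hD2 : t ^ 2 - 4 * n = (psi j 7 * (cc j : ℕ)) * (ZMod.χ₄ (m : ZMod 4) * m) := by
    rw [hD, ← ng_sign h hm]
    rcases ng_chi4 hm with h1 | h1 <;> rw [h1] <;> push_cast <;> ring
  by_cases hp2 : p = 2
  · subst hp2
    rw [rt_two]
    unfold rv
    rw [hD2]
    by_cases hj : j = 0
    · subst hj
      have h1 : psi 0 7 = 1 := rfl
      have h2 : cc 0 = 1 := rfl
      have h3 : psi 0 2 = 1 := rfl
      rw [h1, h2, h3]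
      have h4 : jacobiSym ((2 : ℕ) : ℤ) m = ZMod.χ₈ (m : ZMod 8) := jacobiSym.at_two hm
      rw [h4]
      have h5 : m % 8 = 1 ∨ m % 8 = 3 ∨ m % 8 = 5 ∨ m % 8 = 7 := by
        obtain ⟨a, ha⟩ := hm
        omega
      have h8 : ∀ r : ℕ, m % 8 = r → (m : ZMod 8) = (r : ZMod 8) := by
        intro r hr
        rw [← hr, ZMod.natCast_mod]
      have h9 : ∀ r : ℕ, m % 8 = r → (m : ZMod 4) = (r : ZMod 4) := by
        intro r hr
        have := (ZMod.natCast_eq_natCast_iff m (m % 8) 4).2 (by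
          have : m % 8 ≡ m [MOD 8] := Nat.mod_modEq m 8
          exact (this.of_dvd (by norm_num : 4 ∣ 8)).symm)
        rw [this, hr]
      rcases h5 with h5 | h5 | h5 | h5
      · have h6 : ZMod.χ₈ (m : ZMod 8) = 1 := by rw [h8 _ h5]; decide
        have h7 : ZMod.χ₄ (m : ZMod 4) = 1 := by rw [h9 _ h5]; decide
        rw [h6, h7, if_pos (by push_cast; omega)]
        norm_num
      · have h6 : ZMod.χ₈ (m : ZMod 8) = -1 := by rw [h8 _ h5]; decide
        have h7 : ZMod.χ₄ (m : ZMod 4) = -1 := by rw [h9 _ h5]; decide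
        rw [h6, h7, if_neg (by push_cast; omega), if_pos (by push_cast; omega)]
        norm_num
      · have h6 : ZMod.χ₈ (m : ZMod 8) = -1 := by rw [h8 _ h5]; decide
        have h7 : ZMod.χ₄ (m : ZMod 4) = 1 := by rw [h9 _ h5]; decide
        rw [h6, h7, if_neg (by push_cast; omega), if_pos (by push_cast; omega)]
        norm_num
      · have h6 : ZMod.χ₈ (m : ZMod 8) = 1 := by rw [h8 _ h5]; decide
        have h7 : ZMod.χ₄ (m : ZMod 4) = -1 := by rw [h9 _ h5]; decide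
        rw [h6, h7, if_pos (by push_cast; omega)]
        norm_num
    · have h1 : psi j 2 = 0 := by
        fin_cases j
        · exact absurd rfl hj
        · show ZMod.χ₄ ((2 : ℕ) : ZMod 4) = 0
          decide
        · show ZMod.χ₈ ((2 : ℕ) : ZMod 8) = 0
          decide
        · show ZMod.χ₈' ((2 : ℕ) : ZMod 8) = 0
          decide
      have h2 : (4 : ℤ) ∣ ((cc j : ℕ) : ℤ) := by
        fin_cases j
        · exact absurd rfl hj
        · exact ⟨1, rfl⟩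
        · exact ⟨2, rfl⟩
        · exact ⟨2, rfl⟩
      have h3 : (4 : ℤ) ∣ (psi j 7 * (cc j : ℕ)) * (ZMod.χ₄ (m : ZMod 4) * m) :=
        Dvd.dvd.mul_right (Dvd.dvd.mul_left h2 _) _
      rw [h1, zero_mul, if_neg (by omega), if_neg (by omega)]
      norm_num
  · have hF : Fact p.Prime := ⟨hp⟩
    have ho : Odd p := hp.odd_of_ne_two hp2
    rw [rt_odd t n hp2, hD2, jacobiSym.legendreSym.to_jacobiSym, jacobiSym.mul_left, ng_psi ho]
    unfold rv
    rw [jacobiSym.quadratic_reciprocity' ho hm, jacobiSym.mul_left]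
    unfold qrSign
    ring

end Pool.Agent.CN
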