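import Pool.Agent.Lib_helper82.CN.NG
import Pool.Agent.Lib_helper39.RSA.PRM
import Pool.Agent.Lib_helper39.RCA.CLS

/-!
# CN, blocks NH, NI: real primitive characters and fundamental discriminants
-/

set_option autoImplicit false

namespace Pool.Agent.CN

open Pool.Agent.RC (cc psi rv)
open Pool.Agent.RSE (Par)
open Pool.Agent.LK (PQ)

theorem nh_chi4 {m r : ℕ} (h : m % 4 = r) : ZMod.χ₄ (m : ZMod 4) = ZMod.χ₄ (r : ZMod 4) := by
  rw [← h, ZMod.natCast_mod]

theorem nh_one : ZMod.χ₄ ((1 : ℕ) : ZMod 4) = 1 := by decide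

theorem nh_three : ZMod.χ₄ ((3 : ℕ) : ZMod 4) = -1 := by decide

theorem nh_psi7 (j : Fin 4) : psi j 7 = ![1, -1, 1, -1] j := by
  fin_cases j
  · rfl
  · show ZMod.χ₄ ((7 : ℕ) : ZMod 4) = -1
    decide
  · show ZMod.χ₈ ((7 : ℕ) : ZMod 8) = 1
    decide
  · show ZMod.χ₈' ((7 : ℕ) : ZMod 8) = -1
    decide

/-- the shape of a fundamental discriminant -/
theorem nh_shape {D : ℤ} (hD : Fund D) : ∃ (κ : ℕ) (j : Fin 4) (m : ℕ), Odd m ∧ Squarefree m ∧
    Par κ j m ∧ D = (-1) ^ κ * (cc j * m : ℕ) := by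
  obtain ⟨hD1, ⟨h4, hs⟩ | ⟨m', hm', hs, h4⟩⟩ := hD
  · rcases lt_trichotomy D 0 with h0 | h0 | h0
    · refine ⟨1, 0, D.natAbs, ?_, Int.squarefree_natAbs.2 hs, ⟨le_rfl, ?_⟩, ?_⟩
      · rw [Nat.odd_iff]
        omega
      · rw [nh_psi7, nh_chi4 (show D.natAbs % 4 = 3 by omega), nh_three]
        rfl
      · have : cc 0 = 1 := rfl
        rw [this]
        push_cast
        rw [abs_of_neg h0]
        ring
    · omega
    · refine ⟨0, 0, D.natAbs, ?_, Int.squarefree_natAbs.2 hs, ⟨by norm_num, ?_⟩, ?_⟩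
      · rw [Nat.odd_iff]
        omega
      · rw [nh_psi7, nh_chi4 (show D.natAbs % 4 = 1 by omega), nh_one]
        rfl
      · have : cc 0 = 1 := rfl
        rw [this]
        push_cast
        rw [abs_of_pos h0]
        ring
  · rcases h4 with h4 | h4
    · obtain ⟨a, ha⟩ : (2 : ℤ) ∣ m' := by omega
      have hao : a % 2 = 1 := by omega
      have hsa : Squarefree a := hs.squarefree_of_dvd ⟨2, by rw [ha]; ring⟩
      have hD8 : D = 8 * a := by rw [hm', ha]; ring
      have hodd : Odd a.natAbs := by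
        rw [Nat.odd_iff]
        omega
      have hc : ∀ κ : ℕ, κ ≤ 1 → ∃ j : Fin 4, cc j = 8 ∧ Par κ j a.natAbs := by
        intro κ hκ
        have h1 : a.natAbs % 4 = 1 ∨ a.natAbs % 4 = 3 := by omega
        rcases Nat.le_one_iff_eq_zero_or_eq_one.1 hκ with rfl | rfl <;> rcases h1 with h1 | h1
        · exact ⟨2, rfl, by norm_num, by rw [nh_psi7, nh_chi4 h1, nh_one]; rfl⟩
        · exact ⟨3, rfl, by norm_num, by rw [nh_psi7, nh_chi4 h1, nh_three]; rfl⟩
        · exact ⟨3, rfl, by norm_num, by rw [nh_psi7, nh_chi4 h1, nh_one]; rfl⟩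
        · exact ⟨2, rfl, by norm_num, by rw [nh_psi7, nh_chi4 h1, nh_three]; rfl⟩
      rcases lt_trichotomy a 0 with h0 | h0 | h0
      · obtain ⟨j, hj, hp⟩ := hc 1 le_rfl
        refine ⟨1, j, a.natAbs, hodd, Int.squarefree_natAbs.2 hsa, hp, ?_⟩
        rw [hj, hD8]
        push_cast
        rw [abs_of_neg h0]
        ring
      · omega
      · obtain ⟨j, hj, hp⟩ := hc 0 (by norm_num)
        refine ⟨0, j, a.natAbs, hodd, Int.squarefree_natAbs.2 hsa, hp, ?_⟩
        rw [hj, hD8]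
        push_cast
        rw [abs_of_pos h0]
        ring
    · have hodd : Odd m'.natAbs := by
        rw [Nat.odd_iff]
        omega
      rcases lt_trichotomy m' 0 with h0 | h0 | h0
      · refine ⟨1, 1, m'.natAbs, hodd, Int.squarefree_natAbs.2 hs, ⟨le_rfl, ?_⟩, ?_⟩
        · rw [nh_psi7, nh_chi4 (show m'.natAbs % 4 = 1 by omega), nh_one]
          rfl
        · have : cc 1 = 4 := rfl
          rw [this, hm']
          push_cast
          rw [abs_of_neg h0]
          ring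
      · omega
      · refine ⟨0, 1, m'.natAbs, hodd, Int.squarefree_natAbs.2 hs, ⟨by norm_num, ?_⟩, ?_⟩
        · rw [nh_psi7, nh_chi4 (show m'.natAbs % 4 = 3 by omega), nh_three]
          rfl
        · have : cc 1 = 4 := rfl
          rw [this, hm']
          push_cast
          rw [abs_of_pos h0]
          ring

theorem nh_psi_val (j : Fin 4) (n : ℕ) : psi j n = 0 ∨ psi j n = 1 ∨ psi j n = -1 := by
  fin_cases j
  · exact Or.inr (Or.inl rfl)
  · show ZMod.χ₄ ((n : ℕ) : ZMod 4) = 0 ∨ ZMod.χ₄ ((n : ℕ) : ZMod 4) = 1 ∨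
      ZMod.χ₄ ((n : ℕ) : ZMod 4) = -1
    exact ZMod.isQuadratic_χ₄ _
  · show ZMod.χ₈ ((n : ℕ) : ZMod 8) = 0 ∨ ZMod.χ₈ ((n : ℕ) : ZMod 8) = 1 ∨
      ZMod.χ₈ ((n : ℕ) : ZMod 8) = -1
    exact ZMod.isQuadratic_χ₈ _
  · show ZMod.χ₈' ((n : ℕ) : ZMod 8) = 0 ∨ ZMod.χ₈' ((n : ℕ) : ZMod 8) = 1 ∨
      ZMod.χ₈' ((n : ℕ) : ZMod 8) = -1
    exact ZMod.isQuadratic_χ₈' _

theorem nh_rv_val (j : Fin 4) (m n : ℕ) : rv j m n = 0 ∨ rv j m n = 1 ∨ rv j m n = -1 := by
  unfold rv
  rcases nh_psi_val j n with h | h | h <;> rcases jacobiSym.trichotomy (n : ℤ) m with h1 | h1 | h1 <;>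
    rw [h, h1] <;> norm_num

/-- a character with the values of `RC` is the character of the discriminant -/
theorem nh_chd {κ : ℕ} {j : Fin 4} {m : ℕ} (h : Par κ j m) (hm : Odd m) [NeZero (cc j * m)]
    {χ : DirichletCharacter ℂ (cc j * m)} (hχ : ∀ n : ℕ, χ n = (rv j m n : ℂ)) :
    ChD χ ((-1) ^ κ * (cc j * m : ℕ)) := by
  have hpos : (0 : ℤ) < ((cc j * m : ℕ) : ℤ) := by
    exact_mod_cast Nat.pos_of_ne_zero (NeZero.ne (cc j * m))
  refine ⟨?_, ?_, ?_⟩
  · rw [Int.natAbs_mul, Int.natAbs_pow, Int.natAbs_neg, Int.natAbs_one, one_pow, one_mul,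
      Int.natAbs_natCast]
  · rw [RSE.rse_prm_neg_one j hm hχ, h.2, Int.sign_mul, Int.sign_eq_one_of_pos hpos, mul_one]
    rcases neg_one_pow_eq_or ℤ κ with h1 | h1 <;> rw [h1] <;> norm_num
  · intro t n hD p hp
    rw [hχ p, rv_eq h hm t n hD hp]
    push_cast
    ring

theorem nh_sq {q : ℕ} [NeZero q] {χ : DirichletCharacter ℂ q}
    (h : ∀ n : ℕ, χ n = 0 ∨ χ n = 1 ∨ χ n = -1) : χ ^ 2 = 1 := by
  ext u
  rw [MulChar.pow_apply_coe, MulChar.one_apply_coe]
  have h1 : ((((u : ZMod q).val : ℕ)) : ZMod q) = u := ZMod.natCast_zmod_val _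
  rw [← h1]
  have h2 : χ ((((u : ZMod q).val : ℕ)) : ZMod q) ≠ 0 := by
    rw [h1]
    intro h3
    have h4 : IsUnit (χ (u : ZMod q)) := u.isUnit.map χ
    rw [h3] at h4
    exact not_isUnit_zero h4
  rcases h (u : ZMod q).val with h3 | h3 | h3
  · exact absurd h3 h2
  · rw [h3]
    norm_num
  · rw [h3]
    norm_num

/-- block NH: every fundamental discriminant has a character -/
theorem chd_of_fund {D : ℤ} (hD : Fund D) : ∃ (q : ℕ) (_ : NeZero q)
    (χ : DirichletCharacter ℂ q), PQ χ ∧ ChD χ D := by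
  obtain ⟨κ, j, m, hm, hs, hP, hDe⟩ := nh_shape hD
  have hm0 : m ≠ 0 := by
    rintro rfl
    exact absurd hm (by decide)
  have hc0 : cc j ≠ 0 := by
    rcases RSE.rse_prm_cc j with h | h | h <;> rw [h] <;> norm_num
  have hne : NeZero (cc j * m) := ⟨Nat.mul_ne_zero hc0 hm0⟩
  obtain ⟨χ, hprim, hval, -⟩ := RSE.exists_isRC hP hm hs
  have hch := nh_chd hP hm hval
  refine ⟨cc j * m, hne, χ, ⟨hprim, nh_sq fun n => ?_, ?_⟩, hDe ▸ hch⟩
  · rw [hval]
    rcases nh_rv_val j m n with h | h | h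
    · left
      rw [h]
      norm_num
    · right; left
      rw [h]
      norm_num
    · right; right
      rw [h]
      norm_num
  · rintro rfl
    have h1 : (1 : DirichletCharacter ℂ (cc j * m)).conductor = cc j * m := hprim
    rw [DirichletCharacter.conductor_one] at h1
    rw [← h1] at hDe
    have h2 := hP.1
    obtain ⟨hD1, h3⟩ := hD
    have h4 : D = 1 ∨ D = -1 := by
      rcases Nat.le_one_iff_eq_zero_or_eq_one.1 h2 with rfl | rfl
      · left
        rw [hDe]
        norm_num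
      · right
        rw [hDe]
        norm_num
    rcases h4 with h4 | h4
    · exact hD1 h4
    · rcases h3 with ⟨h3, -⟩ | ⟨m', h3, -⟩ <;> omega

theorem ni_sqf {m : ℕ} (h : ∀ p : ℕ, p.Prime → ¬ p * p ∣ m) : Squarefree m :=
  Nat.squarefree_iff_prime_squarefree.2 h

/-- block NI: every real primitive character is the character of a fundamental discriminant -/
theorem fund_of_pq {q : ℕ} [NeZero q] {χ : DirichletCharacter ℂ q} (h : PQ χ) :
    ∃ D : ℤ, Fund D ∧ ChD χ D := by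
  have hquad : MulChar.IsQuadratic χ := by
    intro a
    by_cases ha : IsUnit a
    · right
      obtain ⟨u, rfl⟩ := ha
      have h1 : χ (u : ZMod q) ^ 2 = 1 := by
        rw [← MulChar.pow_apply_coe, h.sq, MulChar.one_apply_coe]
      have h2 : (χ (u : ZMod q) - 1) * (χ (u : ZMod q) + 1) = 0 := by linear_combination h1
      rcases mul_eq_zero.1 h2 with h3 | h3
      · left
        linear_combination h3
      · right
        linear_combination h3
    · left
      exact χ.map_nonunit ha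
  obtain ⟨j, m, hm, hq, hval⟩ := RC.classify q χ h.prim hquad
  have hcls := RC.rc_cls_prim_of q χ h.prim
  have hqne := h.ne
  have hm0 : m ≠ 0 := by
    rintro rfl
    exact absurd hm (by decide)
  have hs : Squarefree m := by
    refine ni_sqf fun p hp hd => ?_
    have hp2 : p ≠ 2 := by
      rintro rfl
      have : 2 ∣ m := (Dvd.intro _ rfl).trans hd
      obtain ⟨a, ha⟩ := hm
      omega
    exact RC.rc_cls_sq q χ hcls hquad p hp hp2 (hq ▸ Dvd.dvd.mul_left hd _)
  subst hq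
  obtain ⟨κ, hP⟩ : ∃ κ : ℕ, Par κ j m := by
    have h7 : psi j 7 = 1 ∨ psi j 7 = -1 := by
      rw [nh_psi7]
      fin_cases j
      · exact Or.inl rfl
      · exact Or.inr rfl
      · exact Or.inl rfl
      · exact Or.inr rfl
    have h8 : ZMod.χ₄ (m : ZMod 4) = 1 ∨ ZMod.χ₄ (m : ZMod 4) = -1 := by
      have h9 : m % 4 = 1 ∨ m % 4 = 3 := by
        obtain ⟨a, ha⟩ := hm
        omega
      rcases h9 with h9 | h9
      · left; rw [nh_chi4 h9, nh_one]
      · right; rw [nh_chi4 h9, nh_three]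
    rcases h7 with h7 | h7 <;> rcases h8 with h8 | h8
    · exact ⟨0, by norm_num, by rw [h7, h8]; norm_num⟩
    · exact ⟨1, le_rfl, by rw [h7, h8]; norm_num⟩
    · exact ⟨1, le_rfl, by rw [h7, h8]; norm_num⟩
    · exact ⟨0, by norm_num, by rw [h7, h8]; norm_num⟩
  refine ⟨(-1) ^ κ * (cc j * m : ℕ), ?_, nh_chd hP hm hval⟩
  have hq1 : cc j * m ≠ 1 := by
    intro h1
    apply hqne
    have h2 : ∀ χ' : DirichletCharacter ℂ 1, χ' = 1 := fun _ => Subsingleton.elim _ _
    have h3 : ∀ (k : ℕ) (_ : k = 1) (χ' : DirichletCharacter ℂ k), χ' = 1 := by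
      rintro k rfl χ'
      exact h2 χ'
    exact h3 _ h1 χ
  have hsz : ∀ ε : ℤ, ε = 1 ∨ ε = -1 → Squarefree (ε * m) := by
    intro ε hε
    rw [← Int.squarefree_natAbs, Int.natAbs_mul, Int.natAbs_natCast]
    rcases hε with rfl | rfl
    · rw [Int.natAbs_one, one_mul]
      exact hs
    · rw [Int.natAbs_neg, Int.natAbs_one, one_mul]
      exact hs
  have hε : (-1 : ℤ) ^ κ = 1 ∨ (-1 : ℤ) ^ κ = -1 := neg_one_pow_eq_or ℤ κ
  have h9 : m % 4 = 1 ∨ m % 4 = 3 := by
    obtain ⟨a, ha⟩ := hm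
    omega
  have hPar := hP.2
  rw [nh_psi7] at hPar
  set ε : ℤ := (-1) ^ κ with hεd
  refine ⟨?_, ?_⟩
  · intro h1
    apply hq1
    have h2 := congrArg Int.natAbs h1
    rw [Int.natAbs_mul, Int.natAbs_natCast, Int.natAbs_one] at h2
    rcases hε with h3 | h3
    · rw [h3, Int.natAbs_one, one_mul] at h2
      exact h2
    · rw [h3, Int.natAbs_neg, Int.natAbs_one, one_mul] at h2
      exact h2
  · have hχ4 : ZMod.χ₄ (m : ZMod 4) = if m % 4 = 1 then 1 else -1 := by
      rcases h9 with h9 | h9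
      · rw [nh_chi4 h9, nh_one, if_pos h9]
      · rw [nh_chi4 h9, nh_three, if_neg (by omega)]
    rw [hχ4] at hPar
    have hj : (cc j = 1 ∧ (![1, -1, 1, -1] : Fin 4 → ℤ) j = 1) ∨
        (cc j = 4 ∧ (![1, -1, 1, -1] : Fin 4 → ℤ) j = -1) ∨ cc j = 8 := by
      have h1 : ∀ i : Fin 4, (cc i = 1 ∧ (![1, -1, 1, -1] : Fin 4 → ℤ) i = 1) ∨
          (cc i = 4 ∧ (![1, -1, 1, -1] : Fin 4 → ℤ) i = -1) ∨ cc i = 8 := by
        intro i
        fin_cases i
        · exact Or.inl ⟨rfl, rfl⟩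
        · exact Or.inr (Or.inl ⟨rfl, rfl⟩)
        · exact Or.inr (Or.inr rfl)
        · exact Or.inr (Or.inr rfl)
      exact h1 j
    rcases hj with ⟨h1, h2⟩ | ⟨h1, h2⟩ | h1
    · left
      rw [h2, one_mul] at hPar
      rw [Nat.cast_mul, h1, Nat.cast_one, one_mul]
      refine ⟨?_, hsz ε hε⟩
      rcases h9 with h9 | h9
      · rw [if_pos h9] at hPar
        rw [← hPar]
        omega
      · rw [if_neg (by omega)] at hPar
        rw [← hPar]
        omega
    · right
      rw [h2] at hPar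
      refine ⟨ε * m, ?_, hsz ε hε, Or.inr ?_⟩
      · rw [Nat.cast_mul, h1]
        push_cast
        ring
      · rcases h9 with h9 | h9
        · rw [if_pos h9] at hPar
          rw [← hPar]
          omega
        · rw [if_neg (by omega)] at hPar
          rw [← hPar]
          omega
    · right
      refine ⟨2 * (ε * m), ?_, ?_, Or.inl ?_⟩
      · rw [Nat.cast_mul, h1]
        push_cast
        ring
      · rw [squarefree_mul_iff]
        refine ⟨?_, Int.prime_two.squarefree, hsz ε hε⟩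
        apply IsCoprime.isRelPrime
        rw [Int.isCoprime_iff_gcd_eq_one, Int.gcd_eq_natAbs, Int.natAbs_mul]
        have h5 : ε.natAbs = 1 := by
          rcases hε with h | h <;> rw [h] <;> rfl
        rw [h5, one_mul, Int.natAbs_natCast]
        exact Nat.coprime_two_left.2 hm
      · rcases hε with h | h <;> rw [h] <;> omega

end Pool.Agent.CN
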