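import Pool.Agent.Lib_helper82.CN.NE
import Pool.Agent.Lib_helper82.CN.NH
import Pool.Agent.Lib_helper82.T12.Defs
import Pool.Agent.Lib_helper37.CN.NA
import Pool.Agent.Lib_helper33.CN.NC
import Pool.Agent.Lib_helper13.CN.NJ
import Pool.Agent.Lib_helper64.CN.NK

/-!
# CN, block NL: the dictionary
-/

set_option autoImplicit false

namespace Pool.Agent.CN

open NumberField IsDedekindDomain
open Pool.Agent.LK (PQ)
open Pool.Agent.T12 (ZB LB Any)

theorem nl_res {K : Type} [Field K] [NumberField K] (hK : Module.finrank ℚ K = 2) {q : ℕ}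
    [NeZero q] {χ : DirichletCharacter ℂ q} (hχ : PQ χ) (h : ChD χ (discr K)) :
    ‖DirichletCharacter.LFunction χ 1‖ = dedekindZeta_residue K := by
  obtain ⟨ω, t, n, hQ⟩ := qb_exists K hK
  rw [zeta_eq hK hQ hχ.ne (h.val t n hQ.disc.symm), Complex.norm_real,
    Real.norm_of_nonneg (dedekindZeta_residue_pos K).le]

theorem nl_abs {q : ℕ} [NeZero q] {χ : DirichletCharacter ℂ q} {D : ℤ} (h : ChD χ D) :
    |(D : ℝ)| = q := by
  rw [← h.abs, Nat.cast_natAbs, Int.cast_abs]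

theorem nl_odd {q : ℕ} [NeZero q] {χ : DirichletCharacter ℂ q} {D : ℤ} (h : ChD χ D) :
    χ.Odd ↔ D < 0 := by
  have h1 := h.sgn
  rw [DirichletCharacter.Odd, h1]
  rw [← Int.sign_eq_neg_one_iff_neg]
  constructor
  · intro h2
    exact_mod_cast h2
  · intro h2
    rw [h2]
    norm_num

/-- from fields to characters -/
theorem nl_char {K : Type} [Field K] [NumberField K] (hK : Module.finrank ℚ K = 2) :
    ∃ (q : ℕ) (_ : NeZero q) (χ : DirichletCharacter ℂ q), PQ χ ∧ ChD χ (discr K) := by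
  obtain ⟨ω, t, n, hQ⟩ := qb_exists K hK
  exact chd_of_fund (qb_fund hQ)

/-- from characters to fields -/
theorem nl_field {q : ℕ} [NeZero q] {χ : DirichletCharacter ℂ q} (h : PQ χ) :
    ∃ (K : Type) (_ : Field K) (_ : NumberField K), Module.finrank ℚ K = 2 ∧ ChD χ (discr K) := by
  obtain ⟨D, hD, h1⟩ := fund_of_pq h
  obtain ⟨K, _, _, hK, h2⟩ := field_of_fund hD
  exact ⟨K, _, _, hK, h2 ▸ h1⟩

theorem nl_up {K : Type} [Field K] [NumberField K] (hK : Module.finrank ℚ K = 2) {q : ℕ}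
    [NeZero q] {χ : DirichletCharacter ℂ q} (hχ : PQ χ) (h : ChD χ (discr K)) {c x : ℝ}
    (hc : c * x ≤ ‖DirichletCharacter.LFunction χ 1‖) :
    c / 4 * Real.sqrt |(discr K : ℝ)| * x ≤ classNumber K * Units.regulator K := by
  have h1 := (res_quad K hK).2.2
  rw [nl_res hK hχ h] at hc
  have h2 := mul_le_mul_of_nonneg_right hc (Real.sqrt_nonneg |(discr K : ℝ)|)
  linarith

theorem nl_low {K : Type} [Field K] [NumberField K] (hK : Module.finrank ℚ K = 2) {q : ℕ}
    [NeZero q] {χ : DirichletCharacter ℂ q} (hχ : PQ χ) (h : ChD χ (discr K)) {c x : ℝ}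
    (hc : c * Real.sqrt |(discr K : ℝ)| * x ≤ classNumber K * Units.regulator K) :
    c / 12 * x ≤ ‖DirichletCharacter.LFunction χ 1‖ := by
  have h1 := (res_quad K hK).2.1
  rw [nl_res hK hχ h]
  have h3 : 0 < Real.sqrt |(discr K : ℝ)| := by
    rw [Real.sqrt_pos, abs_pos]
    exact_mod_cast discr_ne_zero K
  have h4 : c / 12 * x * Real.sqrt |(discr K : ℝ)| ≤
      dedekindZeta_residue K * Real.sqrt |(discr K : ℝ)| := by linarith
  exact le_of_mul_le_mul_right h4 h3

/-- block NL: the dictionary -/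
theorem clR_iff (B : ℝ) : ClR B ↔ LB Any B := by
  constructor
  · rintro ⟨c, hc, h⟩
    refine ⟨c / 12, by positivity, fun q _ χ hχ _ => ?_⟩
    obtain ⟨K, _, _, hK, h1⟩ := nl_field hχ
    have h2 := nl_low hK hχ h1 (h K hK)
    rwa [nl_abs h1] at h2
  · rintro ⟨c, hc, h⟩
    refine ⟨c / 4, by positivity, fun K _ _ hK => ?_⟩
    obtain ⟨q, _, χ, hχ, h1⟩ := nl_char hK
    have h2 := nl_up hK hχ h1 (h q χ hχ trivial)
    rwa [← nl_abs h1] at h2

/-- block NL: the dictionary -/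
theorem clI_iff (B : ℝ) : ClI B ↔ LB (fun χ => χ.Odd) B := by
  constructor
  · rintro ⟨c, hc, h⟩
    refine ⟨c / 12, by positivity, fun q _ χ hχ ho => ?_⟩
    obtain ⟨K, _, _, hK, h1⟩ := nl_field hχ
    have h0 := (nl_odd h1).1 ho
    have h3 := h K hK h0
    have h2 := nl_low hK hχ h1 (c := c) (x := Real.log |(discr K : ℝ)| ^ (-B)) (by
      rw [(res_quad K hK).1 h0, mul_one]
      exact h3)
    rwa [nl_abs h1] at h2
  · rintro ⟨c, hc, h⟩
    refine ⟨c / 4, by positivity, fun K _ _ hK h0 => ?_⟩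
    obtain ⟨q, _, χ, hχ, h1⟩ := nl_char hK
    have h2 := nl_up hK hχ h1 (h q χ hχ ((nl_odd h1).2 h0))
    rw [← nl_abs h1, (res_quad K hK).1 h0, mul_one] at h2
    exact h2

end Pool.Agent.CN
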